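import Pool.Agent.H2.EDV.Targets

/-!
# Row VMA of edv_modules
-/

open Pool.Agent.H12.ZD (pmap)
open Pool.Agent.H18.HIT Pool.Agent.H18.HX Pool.Agent.H18.VZ
open Pool.Agent.H8.ZA (HFam Const NA)
open Pool.Agent.H8.TX (hn mxn szn)
open Pool.Agent.H2.EDV

namespace Pool.Agent.H72.EDV

open Polynomial in
/-- one root -/
theorem step_gen (v : AbsoluteValue Qb ℝ) (E : ℕ) (M : ℝ) (hM : 0 ≤ M) (r : Qb)
    (q : Qb[X]) (hq : q.natDegree ≤ E)
    (h : ∀ j, v (((X - C r) * q).coeff j) ≤ M) :
    ∀ j, v (q.coeff j) * max 1 (v r) ≤ ((E : ℝ) + 1) * M := by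
  have hc : ∀ j, ((X - C r) * q).coeff (j + 1) = q.coeff j - r * q.coeff (j + 1) := by
    intro j
    rw [sub_mul, coeff_sub, coeff_X_mul, coeff_C_mul]
  have hc0 : ((X - C r) * q).coeff 0 = - (r * q.coeff 0) := by
    rw [sub_mul, coeff_sub, coeff_C_mul, mul_coeff_zero, coeff_X_zero]
    ring
  rcases le_or_gt 1 (v r) with hr | hr
  · rw [max_eq_right hr]
    have key : ∀ j, v (q.coeff j) * v r ≤ ((j : ℝ) + 1) * M := by
      intro j
      induction j with
      | zero =>
        have h1 := h 0
        rw [hc0, map_neg_eq_map, map_mul] at h1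
        simp only [Nat.cast_zero, zero_add, one_mul]
        linarith
      | succ j ih =>
        have h1 := h (j + 1)
        have h2 : q.coeff (j + 1) * r = q.coeff j + -(((X - C r) * q).coeff (j + 1)) := by
          rw [hc j]; ring
        have h3 : v (q.coeff (j + 1)) * v r ≤ v (q.coeff j) + M := by
          rw [← map_mul, h2]
          refine (v.add_le _ _).trans ?_
          rw [map_neg_eq_map]
          linarith
        have h4 : v (q.coeff j) ≤ v (q.coeff j) * v r := by
          have := v.nonneg (q.coeff j)
          nlinarith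
        push_cast
        linarith
    intro j
    rcases le_or_gt j E with hj | hj
    · refine (key j).trans ?_
      have : (j : ℝ) ≤ E := by exact_mod_cast hj
      nlinarith
    · rw [coeff_eq_zero_of_natDegree_lt (lt_of_le_of_lt hq hj), map_zero, zero_mul]
      positivity
  · rw [max_eq_left hr.le]
    have key : ∀ i j, j + i = E + 1 → v (q.coeff j) ≤ (i : ℝ) * M := by
      intro i
      induction i with
      | zero =>
        intro j hj
        rw [coeff_eq_zero_of_natDegree_lt (by omega), map_zero]
        simp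
      | succ i ih =>
        intro j hj
        have h1 := h (j + 1)
        have h2 : q.coeff j = ((X - C r) * q).coeff (j + 1) + r * q.coeff (j + 1) := by
          rw [hc j]; ring
        have h3 := ih (j + 1) (by omega)
        have h4 : v (r * q.coeff (j + 1)) ≤ v (q.coeff (j + 1)) := by
          rw [map_mul]
          have := v.nonneg (q.coeff (j + 1))
          nlinarith
        rw [h2]
        refine (v.add_le _ _).trans ?_
        push_cast
        linarith
    intro j
    rw [mul_one]
    rcases le_or_gt j E with hj | hj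
    · refine (key (E + 1 - j) j (by omega)).trans ?_
      have : ((E + 1 - j : ℕ) : ℝ) ≤ (E : ℝ) + 1 := by
        have : E + 1 - j ≤ E + 1 := Nat.sub_le _ _
        exact_mod_cast this
      nlinarith
    · rw [coeff_eq_zero_of_natDegree_lt (lt_of_le_of_lt hq hj), map_zero]
      positivity

open Polynomial in
/-- one root, nonarchimedean case -/
theorem step_na (v : AbsoluteValue Qb ℝ) (hv : NA v) (E : ℕ) (M : ℝ) (hM : 0 ≤ M) (r : Qb)
    (q : Qb[X]) (hq : q.natDegree ≤ E)
    (h : ∀ j, v (((X - C r) * q).coeff j) ≤ M) :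
    ∀ j, v (q.coeff j) * max 1 (v r) ≤ 1 * M := by
  rw [one_mul]
  have hc : ∀ j, ((X - C r) * q).coeff (j + 1) = q.coeff j - r * q.coeff (j + 1) := by
    intro j
    rw [sub_mul, coeff_sub, coeff_X_mul, coeff_C_mul]
  have hc0 : ((X - C r) * q).coeff 0 = - (r * q.coeff 0) := by
    rw [sub_mul, coeff_sub, coeff_C_mul, mul_coeff_zero, coeff_X_zero]
    ring
  rcases le_or_gt 1 (v r) with hr | hr
  · rw [max_eq_right hr]
    intro j
    induction j with
    | zero =>
      have h1 := h 0
      rw [hc0, map_neg_eq_map, map_mul] at h1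
      linarith
    | succ j ih =>
      have h1 := h (j + 1)
      have h2 : q.coeff (j + 1) * r = q.coeff j + -(((X - C r) * q).coeff (j + 1)) := by
        rw [hc j]; ring
      have h4 : v (q.coeff j) ≤ v (q.coeff j) * v r := by
        have := v.nonneg (q.coeff j)
        nlinarith
      rw [← map_mul, h2]
      refine (hv _ _).trans ?_
      rw [map_neg_eq_map]
      exact max_le (h4.trans ih) h1
  · rw [max_eq_left hr.le]
    have key : ∀ i j, j + i = E + 1 → v (q.coeff j) ≤ M := by
      intro i
      induction i with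
      | zero =>
        intro j hj
        rw [coeff_eq_zero_of_natDegree_lt (by omega), map_zero]
        exact hM
      | succ i ih =>
        intro j hj
        have h1 := h (j + 1)
        have h2 : q.coeff j = ((X - C r) * q).coeff (j + 1) + r * q.coeff (j + 1) := by
          rw [hc j]; ring
        have h3 := ih (j + 1) (by omega)
        have h4 : v (r * q.coeff (j + 1)) ≤ v (q.coeff (j + 1)) := by
          rw [map_mul]
          have := v.nonneg (q.coeff (j + 1))
          nlinarith
        rw [h2]
        exact (hv _ _).trans (max_le h1 (h4.trans h3))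
    intro j
    rw [mul_one]
    rcases le_or_gt j E with hj | hj
    · exact key (E + 1 - j) j (by omega)
    · rw [coeff_eq_zero_of_natDegree_lt (lt_of_le_of_lt hq hj), map_zero]
      exact hM

open Polynomial in
/-- all roots -/
theorem all_roots (v : AbsoluteValue Qb ℝ) (E : ℕ) (A : ℝ) (hA : 1 ≤ A)
    (hstep : ∀ (M : ℝ), 0 ≤ M → ∀ (r : Qb) (q : Qb[X]), q.natDegree ≤ E →
      (∀ j, v (((X - C r) * q).coeff j) ≤ M) → ∀ j, v (q.coeff j) * max 1 (v r) ≤ A * M)
    (Z : Finset Qb) : ∀ (p : Qb[X]) (M : ℝ), 0 ≤ M → p ≠ 0 → p.natDegree ≤ E →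
      (∀ z ∈ Z, p.IsRoot z) → (∀ j, v (p.coeff j) ≤ M) →
      v p.leadingCoeff * ∏ z ∈ Z, max 1 (v z) ≤ A ^ Z.card * M := by
  classical
  induction Z using Finset.induction_on with
  | empty =>
    intro p M hM hp hE _ hb
    rw [Finset.prod_empty, Finset.card_empty, pow_zero, mul_one, one_mul]
    exact hb _
  | insert z Z hz ih =>
    intro p M hM hp hE hroot hb
    obtain ⟨q, hq⟩ := dvd_iff_isRoot.2 (hroot z (Finset.mem_insert_self z Z))
    have hq0 : q ≠ 0 := by
      rintro rfl
      exact hp (by rw [hq, mul_zero])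
    have hdeg : q.natDegree ≤ E := by
      have h1 : p.natDegree = (X - C z).natDegree + q.natDegree := by
        rw [hq]
        exact natDegree_mul (X_sub_C_ne_zero z) hq0
      omega
    have hlc : p.leadingCoeff = q.leadingCoeff := by
      rw [hq, leadingCoeff_mul, leadingCoeff_X_sub_C, one_mul]
    have hs := hstep M hM z q hdeg (by rw [← hq]; exact hb)
    have hmx : 0 < max 1 (v z) := lt_of_lt_of_le one_pos (le_max_left _ _)
    have hroot' : ∀ y ∈ Z, q.IsRoot y := by
      intro y hy
      have h1 := hroot y (Finset.mem_insert_of_mem hy)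
      rw [hq, IsRoot, eval_mul, eval_sub, eval_X, eval_C, mul_eq_zero] at h1
      rcases h1 with h1 | h1
      · exfalso
        rw [sub_eq_zero] at h1
        subst h1
        exact hz hy
      · exact h1
    have h2 := ih q (A * M / max 1 (v z)) (by positivity) hq0 hdeg hroot'
      (fun j => by rw [le_div_iff₀ hmx]; exact hs j)
    rw [Finset.prod_insert hz, Finset.card_insert_of_notMem hz, hlc, pow_succ]
    calc v q.leadingCoeff * (max 1 (v z) * ∏ z ∈ Z, max 1 (v z))
        = (v q.leadingCoeff * ∏ z ∈ Z, max 1 (v z)) * max 1 (v z) := by ring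
      _ ≤ (A ^ Z.card * (A * M / max 1 (v z))) * max 1 (v z) := by gcongr
      _ = A ^ Z.card * A * M := by field_simp

theorem pf_VMA : T_VMA := by
  classical
  intro v E c Z hc0 hZ
  -- the polynomial
  let p : Polynomial Qb := ∑ j : Fin (E + 1), Polynomial.C (c j) * Polynomial.X ^ (E - (j : ℕ))
  have hcoeff : ∀ i, p.coeff i = if h : i ≤ E then c ⟨E - i, by omega⟩ else 0 := by
    intro i
    change (∑ j : Fin (E + 1), Polynomial.C (c j) * Polynomial.X ^ (E - (j : ℕ))).coeff i = _
    rw [Polynomial.finset_sum_coeff]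
    simp only [Polynomial.coeff_C_mul_X_pow]
    split_ifs with h
    · rw [Finset.sum_eq_single (⟨E - i, by omega⟩ : Fin (E + 1))]
      · rw [if_pos]
        change i = E - (E - i)
        omega
      · intro j _ hj
        rw [if_neg]
        intro hi
        apply hj
        apply Fin.ext
        change (j : ℕ) = E - i
        omega
      · intro hh
        exact absurd (Finset.mem_univ _) hh
    · refine Finset.sum_eq_zero fun j _ => ?_
      rw [if_neg]
      omega
  have hlead : p.coeff E = c 0 := by
    rw [hcoeff, dif_pos le_rfl]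
    congr 1
    apply Fin.ext
    change E - E = 0
    omega
  have hp0 : p ≠ 0 := by
    intro h
    rw [h, Polynomial.coeff_zero] at hlead
    exact hc0 hlead.symm
  have hdeg : p.natDegree ≤ E := by
    rw [Polynomial.natDegree_le_iff_coeff_eq_zero]
    intro i hi
    rw [hcoeff, dif_neg (by omega)]
  have hdeg' : p.natDegree = E := by
    refine le_antisymm hdeg (Polynomial.le_natDegree_of_ne_zero ?_)
    rw [hlead]
    exact hc0
  have hlc : p.leadingCoeff = c 0 := by
    rw [Polynomial.leadingCoeff, hdeg', hlead]
  have hM0 : 0 ≤ mxn v c := by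
    unfold mxn
    rw [Finset.le_fold_max]
    exact Or.inl le_rfl
  have hb : ∀ j, v (p.coeff j) ≤ mxn v c := by
    intro j
    rw [hcoeff]
    split_ifs with h
    · unfold mxn
      rw [Finset.le_fold_max]
      exact Or.inr ⟨_, Finset.mem_univ _, le_rfl⟩
    · rw [map_zero]
      exact hM0
  have hroot : ∀ z ∈ Z, p.IsRoot z := by
    intro z hz
    have h1 := hZ z hz
    change Polynomial.eval z
      (∑ j : Fin (E + 1), Polynomial.C (c j) * Polynomial.X ^ (E - (j : ℕ))) = 0
    rw [Polynomial.eval_finset_sum, ← h1]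
    refine Finset.sum_congr rfl fun j _ => ?_
    simp
  have hcard : Z.card ≤ E := by
    have h1 : Z ⊆ p.roots.toFinset := by
      intro z hz
      rw [Multiset.mem_toFinset, Polynomial.mem_roots hp0]
      exact hroot z hz
    calc Z.card ≤ p.roots.toFinset.card := Finset.card_le_card h1
      _ ≤ Multiset.card p.roots := Multiset.toFinset_card_le _
      _ ≤ p.natDegree := Polynomial.card_roots' p
      _ = E := hdeg'
  constructor
  · have h1 := all_roots v E ((E : ℝ) + 1) (by linarith [(Nat.cast_nonneg E : (0 : ℝ) ≤ E)])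
      (fun M hM r q hq h => step_gen v E M hM r q hq h) Z p (mxn v c) hM0 hp0 hdeg hroot hb
    rw [hlc] at h1
    refine h1.trans ?_
    gcongr
    linarith [(Nat.cast_nonneg E : (0 : ℝ) ≤ E)]
  · intro hna
    have h1 := all_roots v E 1 le_rfl
      (fun M hM r q hq h => step_na v hna E M hM r q hq h) Z p (mxn v c) hM0 hp0 hdeg hroot hb
    rw [hlc, one_pow, one_mul] at h1
    exact h1

end Pool.Agent.H72.EDV
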