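import Pool.Agent.H2.EDV.Targets

/-!
# Row VPE of edv_modules
-/

open MvPolynomial
open Pool.Agent.H8.TD (lc)
open Pool.Agent.H2.EDV

namespace Pool.Agent.H72.EDV

/-- the subspace of the linear forms with value in `E` -/
def WE {N : ℕ} {k K : Type} [Field k] [Field K] [Algebra k K] {M : IntermediateField k K}
    (η : Fin N → K) (E : IntermediateField M K) : Submodule k (Fin N → k) where
  carrier := {t | lc t η ∈ E}
  zero_mem' := by
    change lc (0 : Fin N → k) η ∈ E
    unfold lc
    simp only [Pi.zero_apply, zero_smul, Finset.sum_const_zero]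
    exact E.zero_mem
  add_mem' := by
    intro t t' ht ht'
    change lc (t + t') η ∈ E
    have h : lc (t + t') η = lc t η + lc t' η := by
      unfold lc
      simp only [Pi.add_apply, add_smul, Finset.sum_add_distrib]
    rw [h]
    exact E.add_mem ht ht'
  smul_mem' := by
    intro c t ht
    change lc (c • t) η ∈ E
    have h : lc (c • t) η = algebraMap M K (algebraMap k M c) * lc t η := by
      unfold lc
      rw [Finset.mul_sum]
      refine Finset.sum_congr rfl fun i _ => ?_
      rw [Pi.smul_apply, smul_eq_mul, mul_smul, Algebra.smul_def c]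
      rfl
    rw [h]
    exact E.mul_mem (E.algebraMap_mem _) ht

theorem WE_top {N : ℕ} {k K : Type} [Field k] [Field K] [Algebra k K]
    {M : IntermediateField k K} (η : Fin N → K)
    (hη : IntermediateField.adjoin k (Set.range η) = ⊤) (E : IntermediateField M K)
    (h : WE η E = ⊤) : E = ⊤ := by
  have h1 : ∀ i, η i ∈ E := by
    intro i
    have h2 : Pi.single i 1 ∈ WE η E := by rw [h]; trivial
    have h3 : lc (Pi.single i 1 : Fin N → k) η = η i := by
      unfold lc
      rw [Finset.sum_eq_single i]
      · simp
      · intro j _ hj
        rw [Pi.single_eq_of_ne hj, zero_smul]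
      · intro hi
        exact absurd (Finset.mem_univ i) hi
    have h4 : lc (Pi.single i 1 : Fin N → k) η ∈ E := h2
    rwa [h3] at h4
  have h5 : IntermediateField.adjoin k (Set.range η) ≤ E.restrictScalars k := by
    rw [IntermediateField.adjoin_le_iff]
    rintro _ ⟨i, rfl⟩
    exact h1 i
  rw [hη] at h5
  rw [eq_top_iff]
  intro x _
  exact h5 (IntermediateField.mem_top)

theorem pf_VPE : T_VPE := by
  intro N k K _ _ _ _ M η hη hfin
  haveI : CharZero M := charZero_of_injective_algebraMap (algebraMap k M).injective
  haveI : Infinite k := inferInstance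
  haveI : Finite (IntermediateField M K) :=
    Field.finite_intermediateField_of_exists_primitive_element M K
      (Field.exists_primitive_element M K)
  have key : ∀ m ≤ N, ∃ s : Fin m → Fin N → k, LinearIndependent k s ∧
      ∀ j, ∀ E : IntermediateField M K, E ≠ ⊤ → s j ∉ WE η E := by
    intro m
    induction m with
    | zero =>
      intro _
      exact ⟨Fin.elim0, linearIndependent_empty_type, fun j => j.elim0⟩
    | succ m ih =>
      intro hm
      obtain ⟨s, hs, hs2⟩ := ih (by omega)
      let pp : Option {E : IntermediateField M K // E ≠ ⊤} → Submodule k (Fin N → k) :=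
        fun o => match o with
        | none => Submodule.span k (Set.range s)
        | some E => WE η E.1
      have hne : ⋃ i, (pp i : Set (Fin N → k)) ≠ Set.univ := by
        intro hcov
        obtain ⟨i, hi⟩ := Subspace.exists_eq_top_of_iUnion_eq_univ hcov
        match i with
        | none =>
          change Submodule.span k (Set.range s) = ⊤ at hi
          have h1 := finrank_range_le_card (R := k) s
          rw [Set.finrank, hi, finrank_top, Module.finrank_fin_fun, Fintype.card_fin] at h1
          omega
        | some E =>
          exact E.2 (WE_top η hη E.1 hi)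
      obtain ⟨x, hx⟩ := (Set.ne_univ_iff_exists_notMem _).1 hne
      rw [Set.mem_iUnion] at hx
      push Not at hx
      refine ⟨Fin.snoc s x, linearIndependent_finSnoc.2 ⟨hs, hx none⟩, ?_⟩
      intro j E hE
      refine Fin.lastCases ?_ (fun i => ?_) j
      · rw [Fin.snoc_last]
        exact hx (some ⟨E, hE⟩)
      · rw [Fin.snoc_castSucc]
        exact hs2 i E hE
  obtain ⟨s, hs, hs2⟩ := key N le_rfl
  refine ⟨s, ?_, fun j => ?_⟩
  · have h1 : IsUnit (Matrix.of s) := Matrix.linearIndependent_rows_iff_isUnit.1 hs
    exact ((Matrix.isUnit_iff_isUnit_det _).1 h1).ne_zero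
  · by_contra hE
    refine hs2 j _ hE ?_
    exact IntermediateField.subset_adjoin M _ (Set.mem_singleton _)

end Pool.Agent.H72.EDV
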